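import Mathlib
import Pool.Agent.Helper51.HH.Occurs

/-!
# The rectangular module can be in the kernel of the Hermite-Hadamard-Howe map

Negative answer to Q1: for `d = 7`, `n = 4` the module `S_{(7^4)} V` occurs in `S^7(S^4 V)`, and
`h_{7,4}` vanishes on its isotypic component.

(i) The map `h_{d,n}` vanishes on the `S_{(d^n)} V`-isotypic component of `S^d(S^n V)` for all odd `d`
and all `n ≥ 2`, because `S_{(d^n)} V` does not occur in `S^n(S^d V)`: up to a factor the only
semi-invariant of weight `det^d` and of degree `d` in each of `n` vectors of `ℂ^n` is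
`det(y_1, …, y_n)^d`, and it is antisymmetric for odd `d` (`Pool/Agent/Helper51/HH/Odd.lean`).

(ii) There is a semi-invariant of degree 7 of the quaternary quartics: the product of the seven
determinants `det(y_{i+2}, y_{i+4}, y_{i+5}, y_{i+6})`, `i` modulo 7 (the blocks are the complements
of the lines of the Fano plane), symmetrized. Its value at the sum of the fourth powers of the linear
forms `x_1, x_2, x_3, x_4, x_3 - x_4, x_1 - x_2 - x_3 - x_4, x_1 + x_2 - x_3` is `-2016`, up to a
factor which is not zero (`Pool/Agent/Helper51/HH/Occurs.lean`).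
-/

set_option autoImplicit false

namespace Pool.Agent.Results.MP_96ff56_al.OddDegrees

open Pool.Agent.T6.H18.HH

/-- **Negative answer to Q1.** Here `V = ℂ^m` with `m ≥ n`.

(1) The `S_{(7^4)} V`-isotypic component of `S^7(S^4 V)` is not zero, and `h_{7,4}` vanishes on it.

(2) For all odd `d` and all `n ≥ 2` the map `h_{d,n}` vanishes on the `S_{(d^n)} V`-isotypic
component of `S^d(S^n V)`. -/
theorem result :
    (∀ m : ℕ, 4 ≤ m → (∃ t ∈ isotypic m 7 4, t ≠ 0) ∧ ∀ t ∈ isotypic m 7 4, hhh t = 0) ∧
    ∀ m d n : ℕ, 2 ≤ n → n ≤ m → Odd d → ∀ t ∈ isotypic m d n, hhh t = 0 :=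
  ⟨fun _ hm => ⟨Pool.Agent.Helper51.HH.occurs hm,
    Pool.Agent.Helper51.HH.hhh_zero (by norm_num) hm (by decide)⟩,
    fun _ _ _ hn hnm hd => Pool.Agent.Helper51.HH.hhh_zero hn hnm hd⟩

end Pool.Agent.Results.MP_96ff56_al.OddDegrees
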